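import Mathlib
import Pool.Agent.Q127.ET.Spec2

/-!
# Job ET6: the fixed point with extra coefficients
-/

set_option autoImplicit false

open Finset MeasureTheory

namespace Pool.Agent.Q128.ET

open Pool.Agent.H469R10.HO Pool.Agent.H99R3.M469 Pool.Agent.Q127.EZ Pool.Agent.Q127.ET

variable {c lam e κ CJ CH : ℝ} {B : ℕ → Finset ℕ} {m : ℕ}

lemma T3_abs (hm : 1 ≤ m) (n j : ℕ) : |T3 c lam m n j| ≤ 2 * 1 + 2 * (2 ^ (2 * m) * 1) := by
  unfold T3
  have hcb : ∀ y, |Real.cos (uu c lam n * y)| ≤ 1 := fun y => Real.abs_cos_le_one _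
  refine (abs_add_le _ _).trans (add_le_add ?_ ?_)
  · rw [abs_neg]
    exact PP_le (by fun_prop) (fun x _ _ => hcb x) j
  · refine PP_le (DD_cos_cont hm _) (fun x h0 h2 => ?_) j
    refine (DD_abs_le hcb x).trans ?_
    apply mul_le_mul_of_nonneg_right _ zero_le_one
    rw [abs_of_nonneg h0]
    exact pow_le_pow_left₀ h0 h2 _

lemma T3_bounds (hm : 1 ≤ m) (hc : 0 ≤ c) (hM : MBound m κ) (S : Finset ℕ) (β : ℕ → ℝ) (J : ℕ) :
    (∑ j ∈ range J, (∑ n ∈ S, β n * T3 c lam m n j) ^ 2 ≤ (720 + 2 * κ) * QQ (fun _ => 1) S (jj c lam) β) ∧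
    (∑ j ∈ range J, (1 + (j : ℝ)) ^ 2 * (∑ n ∈ S, β n * T3 c lam m n j) ^ 2 ≤
      (720 + 2 * κ) * QQ (fun y => (1 + (y : ℝ)) ^ 2) S (jj c lam) β) := by
  classical
  have hnear1 : ∀ i ∈ S, |uu c lam i - xx (jj c lam i)| ≤ 1 := fun i _ => cell_near (uu_nonneg hc i)
  have e1 : ∀ j, ∑ n ∈ S, β n * T3 c lam m n j =
      - ∑ n ∈ S, β n * PP (fun t => Real.cos (uu c lam n * t)) j +
      PP (DD m (fun y => ∑ i ∈ S, β i * Real.cos (uu c lam i * y))) j := by
    intro j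
    rw [← PP_DD_sum hm, ← sum_neg_distrib, ← sum_add_distrib]
    apply sum_congr rfl
    intro n hn
    unfold T3
    ring
  have hn1 := QQ_nonneg (w := fun _ => 1) (fun _ => zero_le_one) S (jj c lam) β
  have hn2 := QQ_nonneg (w := fun y => (1 + (y : ℝ)) ^ 2) (fun _ => by positivity) S (jj c lam) β
  have hMS := hM S (jj c lam) (uu c lam) β hnear1
  have c1 := colP_one S (jj c lam) (uu c lam) β hnear1 (range J)
  have c2 := colP_two S (jj c lam) (uu c lam) β hnear1 (range J)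
  simp_rw [e1]
  constructor
  · calc ∑ j ∈ range J, (- ∑ n ∈ S, β n * PP (fun t => Real.cos (uu c lam n * t)) j +
      PP (DD m (fun y => ∑ i ∈ S, β i * Real.cos (uu c lam i * y))) j) ^ 2
        ≤ ∑ j ∈ range J, (2 * (∑ n ∈ S, β n * PP (fun t => Real.cos (uu c lam n * t)) j) ^ 2 +
          2 * (PP (DD m (fun y => ∑ i ∈ S, β i * Real.cos (uu c lam i * y))) j) ^ 2) := by
          apply sum_le_sum; intro j _
          nlinarith [sq_nonneg ((∑ n ∈ S, β n * PP (fun t => Real.cos (uu c lam n * t)) j) +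
            PP (DD m (fun y => ∑ i ∈ S, β i * Real.cos (uu c lam i * y))) j)]
      _ ≤ 2 * (60 * QQ (fun _ => 1) S (jj c lam) β) + 2 * (κ * QQ (fun _ => 1) S (jj c lam) β) := by
          rw [sum_add_distrib, ← mul_sum, ← mul_sum]
          have := hMS.1 J
          linarith
      _ ≤ (720 + 2 * κ) * QQ (fun _ => 1) S (jj c lam) β := by nlinarith
  · calc ∑ j ∈ range J, (1 + (j : ℝ)) ^ 2 * (- ∑ n ∈ S, β n * PP (fun t => Real.cos (uu c lam n * t)) j +
      PP (DD m (fun y => ∑ i ∈ S, β i * Real.cos (uu c lam i * y))) j) ^ 2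
        ≤ ∑ j ∈ range J, (2 * ((1 + (j : ℝ)) ^ 2 * (∑ n ∈ S, β n * PP (fun t => Real.cos (uu c lam n * t)) j) ^ 2) +
          2 * ((1 + (j : ℝ)) ^ 2 * (PP (DD m (fun y => ∑ i ∈ S, β i * Real.cos (uu c lam i * y))) j) ^ 2)) := by
          apply sum_le_sum; intro j _
          have h0 : 0 ≤ (1 + (j : ℝ)) ^ 2 := by positivity
          have h1 := mul_nonneg h0 (sq_nonneg ((∑ n ∈ S, β n * PP (fun t => Real.cos (uu c lam n * t)) j) +
            PP (DD m (fun y => ∑ i ∈ S, β i * Real.cos (uu c lam i * y))) j))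
          nlinarith
      _ ≤ 2 * (360 * QQ (fun y => (1 + (y : ℝ)) ^ 2) S (jj c lam) β) + 2 * (κ * QQ (fun y => (1 + (y : ℝ)) ^ 2) S (jj c lam) β) := by
          rw [sum_add_distrib, ← mul_sum, ← mul_sum]
          have := hMS.2 J
          linarith
      _ = (720 + 2 * κ) * QQ (fun y => (1 + (y : ℝ)) ^ 2) S (jj c lam) β := by ring

section

variable (h : Hyp c lam e κ CJ CH B m)
include h

lemma W3 (S : Finset ℕ) (β : ℕ → ℝ) (J : ℕ) :
    ∑ j ∈ range J, WW c j * (∑ n ∈ S, β n * T3 c lam m n j) ^ 2 ≤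
      CJ * (720 + 2 * κ) * QQ (WW c) S (jj c lam) β := by
  have h1 := fun S β J => T3_bounds (lam := lam) h.hm h.hc.le h.hM S β J
  refine h.hJ (jj c lam) (T3 c lam m) (720 + 2 * κ) (by have := h.hκ; positivity) ?_ ?_ S β J
  · intro S β J
    have := (h1 S β J).1
    simpa [QQ] using this
  · intro S β J
    have := (h1 S β J).2
    simpa [QQ] using this

lemma summable_ex {ρ μ : ℝ} {ex : (ℕ → ℝ) → ℕ → ℝ} (hex : Extra c lam ρ μ ex) (hρ0 : 0 < ρ) {b : ℕ → ℝ}
    (hb : ∀ J : ℕ, ∑ j ∈ range J, WW c j * b j ^ 2 ≤ ρ ^ 2) : Summable fun n => |ex b n| := by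
  have hz : ∀ J : ℕ, ∑ j ∈ range J, WW c j * (fun _ : ℕ => (0:ℝ)) j ^ 2 ≤ ρ ^ 2 := by
    intro J; simp; positivity
  have hd : ∀ J : ℕ, ∑ j ∈ range J, WW c j * (b j - (fun _ : ℕ => (0:ℝ)) j) ^ 2 ≤ ρ ^ 2 := by
    intro J; simpa using hb J
  apply summable_of_sum_le (c := Real.sqrt (2 * (μ * ρ ^ 2))) (fun n => abs_nonneg _)
  intro S
  have g1 := hex.lip b (fun _ => 0) ρ hρ0.le hb hz hd S
  simp only [hex.zero, sub_zero] at g1
  have s1 := h.sum_abs_le S (ex b)
  exact Real.le_sqrt_of_sq_le (by linarith)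

/-- the Lipschitz constant of the additional part -/
lemma extra_lip {ρ μ CT M : ℝ} {ex : (ℕ → ℝ) → ℕ → ℝ} (hex : Extra c lam ρ μ ex) (hρ0 : 0 < ρ)
    {T : ℕ → ℕ → ℝ} (hT : ∀ n j, |T n j| ≤ M) (hCT : 0 ≤ CT)
    (hWT : ∀ (S : Finset ℕ) (β : ℕ → ℝ) (J : ℕ), ∑ j ∈ range J, WW c j * (∑ n ∈ S, β n * T n j) ^ 2 ≤
      CT * QQ (WW c) S (jj c lam) β)
    {b b' : ℕ → ℝ} {D : ℝ} (hD0 : 0 ≤ D)
    (hb : ∀ J : ℕ, ∑ j ∈ range J, WW c j * b j ^ 2 ≤ ρ ^ 2)
    (hb' : ∀ J : ℕ, ∑ j ∈ range J, WW c j * b' j ^ 2 ≤ ρ ^ 2)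
    (hD : ∀ J : ℕ, ∑ j ∈ range J, WW c j * (b j - b' j) ^ 2 ≤ D ^ 2) (J : ℕ) :
    ∑ j ∈ range J, WW c j * (∑' n, ex b n * T n j - ∑' n, ex b' n * T n j) ^ 2 ≤ CT * (μ * D ^ 2) := by
  have hsb := summable_ex h hex hρ0 hb
  have hsb' := summable_ex h hex hρ0 hb'
  have hst : ∀ (b : ℕ → ℝ), (Summable fun n => |ex b n|) → ∀ j, Summable fun n => ex b n * T n j := by
    intro b hb j
    refine Summable.of_norm_bounded (hb.mul_right M) fun n => ?_
    rw [Real.norm_eq_abs, abs_mul]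
    exact mul_le_mul_of_nonneg_left (hT n j) (abs_nonneg _)
  have e1 : ∀ j, ∑' n, ex b n * T n j - ∑' n, ex b' n * T n j = ∑' n, (ex b n - ex b' n) * T n j := by
    intro j
    rw [← (hst b hsb j).tsum_sub (hst b' hsb' j)]
    exact tsum_congr fun n => by ring
  simp_rw [e1]
  have hsum : ∀ j, HasSum (fun n => (ex b n - ex b' n) * T n j) (∑' n, (ex b n - ex b' n) * T n j) := by
    intro j
    apply Summable.hasSum
    have := (hst b hsb j).sub (hst b' hsb' j)
    refine this.congr fun n => by ring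
  have ht : Filter.Tendsto (fun S : Finset ℕ => ∑ j ∈ range J, WW c j * (∑ n ∈ S, (ex b n - ex b' n) * T n j) ^ 2)
      Filter.atTop (nhds (∑ j ∈ range J, WW c j * (∑' n, (ex b n - ex b' n) * T n j) ^ 2)) :=
    tendsto_finsetSum _ fun j _ => ((hsum j).pow 2).const_mul _
  refine le_of_tendsto' ht fun S => ?_
  refine (hWT S (fun n => ex b n - ex b' n) J).trans ?_
  exact mul_le_mul_of_nonneg_left (hex.lip b b' D hD0 hb hb' hD S) hCT

end

lemma comb_sq {W x y : ℕ → ℝ} (hW : ∀ j, 0 ≤ W j) (S : Finset ℕ) {P Q : ℝ} (hP : ∑ j ∈ S, W j * x j ^ 2 ≤ P)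
    (hQ : ∑ j ∈ S, W j * y j ^ 2 ≤ Q) : ∑ j ∈ S, W j * (x j + y j) ^ 2 ≤ 97 / 96 * P + 97 * Q := by
  calc ∑ j ∈ S, W j * (x j + y j) ^ 2 ≤ ∑ j ∈ S, (97 / 96 * (W j * x j ^ 2) + 97 * (W j * y j ^ 2)) := by
        apply sum_le_sum
        intro j _
        have h1 := mul_nonneg (hW j) (sq_nonneg (x j - 96 * y j))
        nlinarith
    _ = 97 / 96 * ∑ j ∈ S, W j * x j ^ 2 + 97 * ∑ j ∈ S, W j * y j ^ 2 := by
        rw [sum_add_distrib, mul_sum, mul_sum]
    _ ≤ _ := by linarith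

/-- JOB ET6 -/
theorem fix : S_Fix := by
  intro c lam e κ CJ CH B m h hQ hm κE K0 ρ μ hκE hE hK0 hK1 hρ0 hρ hK hK2 hμ0 hμ1 hμ2 ex hex s t hs ht
  have hW := WW_pos h.hc h.hc1
  have hCJ := h.hCJ
  have hCH := h.hCH
  have hWX : ∀ i, 0 < WX c K0 i := by
    intro i
    unfold WX
    split_ifs
    · exact hW _
    · exact mul_pos (by positivity) (hW _)
  -- from combined sums to the two parts
  have hpart : ∀ (y : ℕ → ℝ) (D : ℝ), (∀ J : ℕ, ∑ i ∈ range J, WX c K0 i * y i ^ 2 ≤ D ^ 2) →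
      (∀ J : ℕ, ∑ j ∈ range J, WW c j * y (2 * j) ^ 2 ≤ D ^ 2) ∧
      (∀ J : ℕ, K0 ^ 2 * ∑ j ∈ range J, WW c j * y (2 * j + 1) ^ 2 ≤ D ^ 2) := by
    intro y D hy
    have h0 : ∀ J, 0 ≤ ∑ j ∈ range J, WW c j * y (2 * j) ^ 2 := fun J =>
      sum_nonneg fun j _ => mul_nonneg (hW j).le (sq_nonneg _)
    have h1 : ∀ J, 0 ≤ K0 ^ 2 * ∑ j ∈ range J, WW c j * y (2 * j + 1) ^ 2 := fun J =>
      mul_nonneg (sq_nonneg _) (sum_nonneg fun j _ => mul_nonneg (hW j).le (sq_nonneg _))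
    constructor
    · intro J
      have := hy (2 * J)
      rw [sum_WX] at this
      linarith [h1 J]
    · intro J
      have := hy (2 * J)
      rw [sum_WX] at this
      linarith [h0 J]
  have hback : ∀ (y : ℕ → ℝ) (D1 D2 : ℝ), (∀ J : ℕ, ∑ j ∈ range J, WW c j * y (2 * j) ^ 2 ≤ D1) →
      (∀ J : ℕ, K0 ^ 2 * ∑ j ∈ range J, WW c j * y (2 * j + 1) ^ 2 ≤ D2) →
      ∀ J : ℕ, ∑ i ∈ range J, WX c K0 i * y i ^ 2 ≤ D1 + D2 := by
    intro y D1 D2 h1 h2 J
    have h3 : ∑ i ∈ range J, WX c K0 i * y i ^ 2 ≤ ∑ i ∈ range (2 * J), WX c K0 i * y i ^ 2 := by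
      apply sum_le_sum_of_subset_of_nonneg (range_mono (by omega))
      intro i _ _
      exact mul_nonneg (hWX i).le (sq_nonneg _)
    refine h3.trans ?_
    rw [sum_WX]
    exact add_le_add (h1 J) (h2 J)
  have hm3 : 3 ≤ m := by omega
  obtain ⟨Φ, hΦ⟩ : ∃ Φ : (ℕ → ℝ) → ℕ → ℝ, Φ = fun x i => if i % 2 = 0 then
      (s (i / 2) + ∑' k, x (2 * k + 1) * PP (sk m k) (i / 2)) +
        ∑' n, alp c lam B (fun j => x (2 * j)) n * TT c lam m n (i / 2) +
        ∑' n, ex (fun j => x (2 * j)) n * T3 c lam m n (i / 2)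
      else t (i / 2) - 32 * (∑' n, alp c lam B (fun j => x (2 * j)) n * TE c lam m n (i / 2) +
        ∑' n, ex (fun j => x (2 * j)) n * TE c lam m n (i / 2)) := ⟨_, rfl⟩
  have hΦ0 : ∀ x j, Φ x (2 * j) = (s j + ∑' k, x (2 * k + 1) * PP (sk m k) j) +
      ∑' n, alp c lam B (fun j => x (2 * j)) n * TT c lam m n j +
      ∑' n, ex (fun j => x (2 * j)) n * T3 c lam m n j := by
    intro x j
    rw [hΦ]
    simp only
    rw [if_pos (by omega), show 2 * j / 2 = j by omega]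
  have hΦ1 : ∀ x j, Φ x (2 * j + 1) = t j - 32 * (∑' n, alp c lam B (fun j => x (2 * j)) n * TE c lam m n j +
      ∑' n, ex (fun j => x (2 * j)) n * TE c lam m n j) := by
    intro x j
    rw [hΦ]
    simp only
    rw [if_neg (by omega), show (2 * j + 1) / 2 = j by omega]
  have hzT : ∀ j, ∑' n, alp c lam B (fun _ => 0) n * TT c lam m n j = 0 := by
    intro j
    have : ∀ n, alp c lam B (fun _ => 0) n * TT c lam m n j = 0 := by
      intro n
      rw [Hyp.alp_zero]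
      split_ifs with h1
      · subst h1
        unfold TT
        simp
        intro hp1
        exact absurd hp1 Nat.not_prime_one
      · simp
    simp_rw [this]
    exact tsum_zero
  have hzE : ∀ j, ∑' n, alp c lam B (fun _ => 0) n * TE c lam m n j = 0 := by
    intro j
    have : ∀ n, alp c lam B (fun _ => 0) n * TE c lam m n j = 0 := by
      intro n
      rw [Hyp.alp_zero]
      split_ifs with h1
      · subst h1
        unfold TE
        simp
      · simp
    simp_rw [this]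
    exact tsum_zero
  have hzX : ∀ (T : ℕ → ℕ → ℝ) (j : ℕ), ∑' n, ex (fun _ => 0) n * T n j = 0 := by
    intro T j
    simp only [hex.zero, zero_mul, tsum_zero]
  obtain ⟨x, hx1, hx2⟩ := hQ (WX c K0) hWX Φ ρ (7 / 8) hρ0 (by norm_num) (by norm_num) (by
    have h1 := hback (Φ fun _ => 0) ((ρ / 16) ^ 2) ((ρ / 16) ^ 2) (fun J => by
      have : ∀ j, Φ (fun _ => 0) (2 * j) = s j := by
        intro j
        rw [hΦ0, hzT, hzX]
        simp
      simp_rw [this]
      exact hs J) (fun J => by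
      have : ∀ j, Φ (fun _ => 0) (2 * j + 1) = t j := by
        intro j
        rw [hΦ1, hzE, hzX]
        simp
      simp_rw [this]
      exact ht J)
    intro J
    refine (h1 J).trans ?_
    nlinarith [sq_nonneg ρ]) (by
    intro x x' hx hx' D hD0 hD J
    obtain ⟨hb, hg⟩ := hpart x ρ hx
    obtain ⟨hb', hg'⟩ := hpart x' ρ hx'
    obtain ⟨hDb, hDg⟩ := hpart (fun i => x i - x' i) D hD
    have hK02 : 0 < K0 ^ 2 := by positivity
    have hgD : ∀ (g : ℕ → ℝ) (D : ℝ), (∀ J : ℕ, K0 ^ 2 * ∑ j ∈ range J, WW c j * g j ^ 2 ≤ D ^ 2) →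
        ∀ J : ℕ, ∑ j ∈ range J, WW c j * g j ^ 2 ≤ (D / K0) ^ 2 := by
      intro g D hg J
      rw [div_pow, le_div_iff₀ hK02, mul_comm]
      exact hg J
    have hsg := summable_g h (hgD _ _ hg)
    have hsg' := summable_g h (hgD _ _ hg')
    have hU := lip_U h (by omega) (hgD _ _ hDg)
    have hI := lip_b h hρ0 hD0 hρ hK hb hb' hDb
    have hT := lip_E h hκE hE hm hρ0 hD0 hρ hb hb' hDb
    have hX3 := extra_lip h hex hρ0 (T := T3 c lam m) (fun n j => T3_abs h.hm n j)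
      (mul_nonneg hCJ (by have := h.hκ; positivity)) (W3 h) hD0 hb hb' hDb
    have hXE := extra_lip h hex hρ0 (T := TE c lam m) (fun n j => TE_abs h (by omega) n j)
      (mul_nonneg hCJ hκE) (W_E h hκE hE hm) hD0 hb hb' hDb
    have e1 : ∀ j, ∑' k, (x (2 * k + 1) - x' (2 * k + 1)) * PP (sk m k) j =
        ∑' k, x (2 * k + 1) * PP (sk m k) j - ∑' k, x' (2 * k + 1) * PP (sk m k) j := by
      intro j
      rw [← (summable_gP h (by omega) hsg j).tsum_sub (summable_gP h (by omega) hsg' j)]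
      exact tsum_congr fun k => by ring
    refine (hback (fun i => Φ x i - Φ x' i) (97 / 96 * (5 / 8 * D ^ 2) + 97 * (1 / 100000 * D ^ 2))
      (97 / 96 * (1 / 8 * D ^ 2) + 97 * (1 / 100000 * D ^ 2)) ?_ ?_ J).trans ?_
    · intro J
      have e2 : ∀ j, Φ x (2 * j) - Φ x' (2 * j) = ((∑' k, (x (2 * k + 1) - x' (2 * k + 1)) * PP (sk m k) j) +
          (∑' n, alp c lam B (fun j => x (2 * j)) n * TT c lam m n j -
            ∑' n, alp c lam B (fun j => x' (2 * j)) n * TT c lam m n j)) +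
          (∑' n, ex (fun j => x (2 * j)) n * T3 c lam m n j - ∑' n, ex (fun j => x' (2 * j)) n * T3 c lam m n j) := by
        intro j
        rw [hΦ0, hΦ0, e1]
        ring
      simp_rw [e2]
      refine comb_sq (fun j => (hW j).le) (range J) (x := fun j => (∑' k, (x (2 * k + 1) - x' (2 * k + 1)) * PP (sk m k) j) +
          (∑' n, alp c lam B (fun j => x (2 * j)) n * TT c lam m n j -
            ∑' n, alp c lam B (fun j => x' (2 * j)) n * TT c lam m n j)) (y := fun j =>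
          ∑' n, ex (fun j => x (2 * j)) n * T3 c lam m n j - ∑' n, ex (fun j => x' (2 * j)) n * T3 c lam m n j) ?_ ?_
      · calc ∑ j ∈ range J, WW c j * ((∑' k, (x (2 * k + 1) - x' (2 * k + 1)) * PP (sk m k) j) +
            (∑' n, alp c lam B (fun j => x (2 * j)) n * TT c lam m n j -
              ∑' n, alp c lam B (fun j => x' (2 * j)) n * TT c lam m n j)) ^ 2
            ≤ ∑ j ∈ range J, (2 * (WW c j * (∑' k, (x (2 * k + 1) - x' (2 * k + 1)) * PP (sk m k) j) ^ 2) +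
              2 * (WW c j * (∑' n, alp c lam B (fun j => x (2 * j)) n * TT c lam m n j -
              ∑' n, alp c lam B (fun j => x' (2 * j)) n * TT c lam m n j) ^ 2)) := by
              apply sum_le_sum
              intro j _
              have := mul_nonneg (hW j).le (sq_nonneg ((∑' k, (x (2 * k + 1) - x' (2 * k + 1)) * PP (sk m k) j) -
                (∑' n, alp c lam B (fun j => x (2 * j)) n * TT c lam m n j -
              ∑' n, alp c lam B (fun j => x' (2 * j)) n * TT c lam m n j)))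
              nlinarith
          _ = 2 * ∑ j ∈ range J, WW c j * (∑' k, (x (2 * k + 1) - x' (2 * k + 1)) * PP (sk m k) j) ^ 2 +
              2 * ∑ j ∈ range J, WW c j * (∑' n, alp c lam B (fun j => x (2 * j)) n * TT c lam m n j -
              ∑' n, alp c lam B (fun j => x' (2 * j)) n * TT c lam m n j) ^ 2 := by
              rw [sum_add_distrib, mul_sum, mul_sum]
          _ ≤ 2 * (CJ * CU m * (D / K0) ^ 2) + 2 * (1 / 4 * D ^ 2) := by
              have a1 := hU J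
              have a2 := hI J
              linarith
          _ ≤ 1 / 8 * D ^ 2 + 2 * (1 / 4 * D ^ 2) := by
              have a3 : 2 * (CJ * CU m) * (D / K0) ^ 2 ≤ 1 / 8 * K0 ^ 2 * (D / K0) ^ 2 :=
                mul_le_mul_of_nonneg_right hK1 (sq_nonneg _)
              have a4 : 1 / 8 * K0 ^ 2 * (D / K0) ^ 2 = 1 / 8 * D ^ 2 := by
                rw [div_pow]; field_simp
              linarith
          _ = 5 / 8 * D ^ 2 := by ring
      · refine (hX3 J).trans ?_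
        rw [← mul_assoc]
        exact mul_le_mul_of_nonneg_right hμ2 (sq_nonneg _)
    · intro J
      have e2 : ∀ j, Φ x (2 * j + 1) - Φ x' (2 * j + 1) = -32 *
          ((∑' n, alp c lam B (fun j => x (2 * j)) n * TE c lam m n j -
            ∑' n, alp c lam B (fun j => x' (2 * j)) n * TE c lam m n j) +
          (∑' n, ex (fun j => x (2 * j)) n * TE c lam m n j - ∑' n, ex (fun j => x' (2 * j)) n * TE c lam m n j)) := by
        intro j
        rw [hΦ1, hΦ1]
        ring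
      simp_rw [e2]
      have e3 : ∀ j, WW c j * (-32 *
          ((∑' n, alp c lam B (fun j => x (2 * j)) n * TE c lam m n j -
            ∑' n, alp c lam B (fun j => x' (2 * j)) n * TE c lam m n j) +
          (∑' n, ex (fun j => x (2 * j)) n * TE c lam m n j - ∑' n, ex (fun j => x' (2 * j)) n * TE c lam m n j))) ^ 2 =
          1024 * (WW c j * ((∑' n, alp c lam B (fun j => x (2 * j)) n * TE c lam m n j -
            ∑' n, alp c lam B (fun j => x' (2 * j)) n * TE c lam m n j) +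
          (∑' n, ex (fun j => x (2 * j)) n * TE c lam m n j -
            ∑' n, ex (fun j => x' (2 * j)) n * TE c lam m n j)) ^ 2) := by
        intro j
        ring
      simp_rw [e3]
      rw [← mul_sum]
      have a1 := hT J
      have a2 := hXE J
      have a3 := comb_sq (fun j => (hW j).le) (range J) a1 a2
      have b1 : K0 ^ 2 * 1024 * (CJ * κE) ≤ 1 / 16 := by
        have g1 : 0 ≤ K0 ^ 2 * 1024 * (2 * (CJ * κE)) * (CH * 81 * ρ ^ 2) := by positivity
        have g2 : K0 ^ 2 * 1024 * (2 * (CJ * κE) * (1 + CH * 81 * ρ ^ 2)) =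
            2 * (K0 ^ 2 * 1024 * (CJ * κE)) + K0 ^ 2 * 1024 * (2 * (CJ * κE)) * (CH * 81 * ρ ^ 2) := by ring
        linarith
      have b2 : K0 ^ 2 * 1024 * (CJ * κE) * (μ * D ^ 2) ≤ 1 / 100000 * D ^ 2 := by
        have g1 : 0 ≤ K0 ^ 2 * 1024 * (CJ * κE) := by positivity
        have g2 : 0 ≤ D ^ 2 := sq_nonneg D
        calc K0 ^ 2 * 1024 * (CJ * κE) * (μ * D ^ 2) ≤ 1 / 16 * (1 / 100000 * D ^ 2) := by gcongr
          _ ≤ 1 / 100000 * D ^ 2 := by nlinarith
      calc K0 ^ 2 * (1024 * ∑ j ∈ range J, WW c j * ((∑' n, alp c lam B (fun j => x (2 * j)) n * TE c lam m n j -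
            ∑' n, alp c lam B (fun j => x' (2 * j)) n * TE c lam m n j) +
          (∑' n, ex (fun j => x (2 * j)) n * TE c lam m n j - ∑' n, ex (fun j => x' (2 * j)) n * TE c lam m n j)) ^ 2)
          ≤ K0 ^ 2 * (1024 * (97 / 96 * (2 * (CJ * κE) * (1 + CH * 81 * ρ ^ 2) * D ^ 2) +
              97 * (CJ * κE * (μ * D ^ 2)))) := by gcongr
        _ = 97 / 96 * (K0 ^ 2 * 1024 * (2 * (CJ * κE) * (1 + CH * 81 * ρ ^ 2)) * D ^ 2) +
              97 * (K0 ^ 2 * 1024 * (CJ * κE) * (μ * D ^ 2)) := by ring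
        _ ≤ 97 / 96 * (1 / 8 * D ^ 2) + 97 * (1 / 100000 * D ^ 2) := by
            have := mul_le_mul_of_nonneg_right hK2 (sq_nonneg D)
            linarith
    · nlinarith [sq_nonneg D])
  obtain ⟨hb, hg⟩ := hpart x ρ hx1
  have hK02 : 0 < K0 ^ 2 := by positivity
  refine ⟨fun j => x (2 * j), fun k => x (2 * k + 1), hb, hg, h.summable_alp hρ0 hρ hb, ?_,
    summable_ex h hex hρ0 hb, fun j => ?_, fun k => ?_⟩
  · refine summable_g h (D := ρ / K0) fun J => ?_
    rw [div_pow, le_div_iff₀ hK02, mul_comm]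
    exact hg J
  · have := hx2 (2 * j)
    rw [hΦ0] at this
    exact this
  · have := hx2 (2 * k + 1)
    rw [hΦ1] at this
    exact this

end Pool.Agent.Q128.ET
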