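import Mathlib
import Pool.Agent.Q127.ET.Spec

/-!
# Job ET4: size of the source
-/

set_option autoImplicit false

open Finset MeasureTheory

namespace Pool.Agent.Q128.ET

open Pool.Agent.H469R10.HO Pool.Agent.H13R3.EM Pool.Agent.Q127.EZ Pool.Agent.Q127.ET
open Pool.Agent.H99R3.M469

/-- the coefficients of the source -/
noncomputable def wk (m k : ℕ) : ℝ := ((k + 1 : ℕ) : ℝ) ^ (-(4 * (m : ℝ) + 3 / 2))

/-- the frequencies of the source -/
noncomputable def ck (c : ℝ) (k : ℕ) : ℝ := c * ((k + 1 : ℕ) : ℝ) ^ 2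

lemma wk_pos (m k : ℕ) : 0 < wk m k := by
  unfold wk
  exact Real.rpow_pos_of_pos (by positivity) _

lemma wk_mul {m : ℕ} (j : ℕ) (hm : (j : ℝ) + 1 / 2 ≤ 4 * m) (k : ℕ) :
    wk m k * (1 + (k : ℝ)) ^ j ≤ 1 / (1 + (k : ℝ)) ^ 2 := by
  have h1 : ((k + 1 : ℕ) : ℝ) = 1 + (k : ℝ) := by push_cast; ring
  have h0 : (0:ℝ) < 1 + (k : ℝ) := by positivity
  have hge : (1:ℝ) ≤ 1 + (k : ℝ) := by
    have : (0:ℝ) ≤ k := Nat.cast_nonneg k
    linarith
  unfold wk
  rw [h1, ← Real.rpow_natCast (1 + (k:ℝ)) j, ← Real.rpow_add h0, one_div,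
    ← Real.rpow_natCast (1 + (k:ℝ)) 2, ← Real.rpow_neg h0.le]
  apply Real.rpow_le_rpow_of_exponent_le hge
  push_cast
  linarith

lemma wk_le {m : ℕ} (hm : 1 ≤ m) (k : ℕ) : wk m k ≤ 1 / (1 + (k : ℝ)) ^ 2 := by
  have h := wk_mul (m := m) 0 (by
    have : (1:ℝ) ≤ m := by exact_mod_cast hm
    push_cast; linarith) k
  rwa [pow_zero, mul_one] at h

lemma sum_fin_le (S : Finset ℕ) : ∑ k ∈ S, 1 / (1 + (k : ℝ)) ^ 2 ≤ 2 := by
  refine le_trans ?_ (sum_inv_sq_le (S.sup id + 1))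
  apply sum_le_sum_of_subset_of_nonneg
  · intro y hy
    rw [mem_range]
    have : id y ≤ S.sup id := le_sup hy
    simp only [id] at this
    omega
  · intro y _ _
    positivity

lemma summable_inv_sq : Summable fun k : ℕ => 1 / (1 + (k : ℝ)) ^ 2 :=
  summable_of_sum_le (fun k => by positivity) sum_fin_le

lemma summable_wk {m : ℕ} (hm : 1 ≤ m) : Summable (wk m) :=
  Summable.of_nonneg_of_le (fun k => (wk_pos m k).le) (wk_le hm) summable_inv_sq

lemma tsum_wk_le {m : ℕ} (hm : 1 ≤ m) : ∑' k, wk m k ≤ 2 :=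
  (summable_wk hm).tsum_le_of_sum_le fun S => (sum_le_sum fun k _ => wk_le hm k).trans (sum_fin_le S)

lemma sT_eq (c : ℝ) (m : ℕ) (x : ℝ) : sT c m x = ∑' k, wk m k * s0 (ck c k) x := rfl

lemma s0_c (c : ℝ) : Continuous (s0 c) := by unfold s0; fun_prop

lemma s0_two (c x : ℝ) : |s0 c x| ≤ 2 := Pool.Agent.H5R3.T469N.abs_s0_le_two c x

lemma term_bd (c : ℝ) (m k : ℕ) (x : ℝ) : ‖wk m k * s0 (ck c k) x‖ ≤ wk m k * 2 := by
  rw [Real.norm_eq_abs, abs_mul, abs_of_pos (wk_pos m k)]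
  exact mul_le_mul_of_nonneg_left (s0_two _ _) (wk_pos m k).le

lemma hasSum_sT {m : ℕ} (hm : 1 ≤ m) (c x : ℝ) : HasSum (fun k => wk m k * s0 (ck c k) x) (sT c m x) :=
  (Summable.of_norm_bounded ((summable_wk hm).mul_right 2) fun k => term_bd c m k x).hasSum

lemma sT_cont {m : ℕ} (hm : 1 ≤ m) (c : ℝ) : Continuous (sT c m) :=
  continuous_tsum (fun k => continuous_const.mul (s0_c _)) ((summable_wk hm).mul_right 2) fun k x =>
    term_bd c m k x

lemma sT_abs {m : ℕ} (hm : 1 ≤ m) (c x : ℝ) : |sT c m x| ≤ 6 := by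
  have h1 : ‖sT c m x‖ ≤ ∑' k, wk m k * 2 :=
    tsum_of_norm_bounded ((summable_wk hm).mul_right 2).hasSum fun k => term_bd c m k x
  rw [tsum_mul_right] at h1
  have h2 := tsum_wk_le hm
  rw [Real.norm_eq_abs] at h1
  linarith

/-- superposition -/
lemma super {m : ℕ} (hm : 4 ≤ m) {c K1 : ℝ} (hc : 0 < c) (hK1 : 0 ≤ K1) {F : ℕ → ℕ → ℝ} {G : ℕ → ℝ}
    (hF : ∀ (k : ℕ) (J : Finset ℕ), ∑ j ∈ J, (1 + (j : ℝ)) ^ 2 * F k j ^ 2 ≤ (K1 * ck c k ^ 2) ^ 2)
    (hG : ∀ j, HasSum (fun k => wk m k * F k j) (G j)) (J : Finset ℕ) :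
    ∑ j ∈ J, (1 + (j : ℝ)) ^ 2 * G j ^ 2 ≤ (2 * K1 * c ^ 2) ^ 2 := by
  have ht : Filter.Tendsto (fun S : Finset ℕ => ∑ j ∈ J, (1 + (j : ℝ)) ^ 2 * (∑ k ∈ S, wk m k * F k j) ^ 2)
      Filter.atTop (nhds (∑ j ∈ J, (1 + (j : ℝ)) ^ 2 * G j ^ 2)) :=
    tendsto_finsetSum _ fun j _ => ((hG j).pow 2).const_mul _
  refine le_of_tendsto' ht fun S => ?_
  have ha : ∀ k, 0 < ck c k ^ 2 := fun k => by unfold ck; positivity
  set A : ℝ := ∑ k ∈ S, wk m k * ck c k ^ 2 with hA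
  have hA0 : 0 ≤ A := sum_nonneg fun k _ => mul_nonneg (wk_pos m k).le (ha k).le
  have hA2 : A ≤ 2 * c ^ 2 := by
    have h1 : ∀ k, wk m k * ck c k ^ 2 ≤ c ^ 2 * (1 / (1 + (k : ℝ)) ^ 2) := by
      intro k
      have h2 := wk_mul (m := m) 4 (by
        have : (4:ℝ) ≤ m := by exact_mod_cast hm
        push_cast; linarith) k
      have h3 : wk m k * ck c k ^ 2 = c ^ 2 * (wk m k * (1 + (k : ℝ)) ^ 4) := by
        unfold ck; push_cast; ring
      rw [h3]
      exact mul_le_mul_of_nonneg_left h2 (sq_nonneg c)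
    calc A ≤ ∑ k ∈ S, c ^ 2 * (1 / (1 + (k : ℝ)) ^ 2) := sum_le_sum fun k _ => h1 k
      _ = c ^ 2 * ∑ k ∈ S, 1 / (1 + (k : ℝ)) ^ 2 := by rw [mul_sum]
      _ ≤ c ^ 2 * 2 := mul_le_mul_of_nonneg_left (sum_fin_le S) (sq_nonneg c)
      _ = 2 * c ^ 2 := by ring
  have hcs : ∀ j, (∑ k ∈ S, wk m k * F k j) ^ 2 ≤ A * ∑ k ∈ S, wk m k * F k j ^ 2 / ck c k ^ 2 := by
    intro j
    apply sum_sq_le_sum_mul_sum_of_sq_le_mul S
    · intro k _
      exact mul_nonneg (wk_pos m k).le (ha k).le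
    · intro k _
      have := (wk_pos m k).le
      have := (ha k).le
      positivity
    · intro k _
      have hne := (ha k).ne'
      generalize ck c k ^ 2 = A0 at hne
      apply le_of_eq
      field_simp
  calc ∑ j ∈ J, (1 + (j : ℝ)) ^ 2 * (∑ k ∈ S, wk m k * F k j) ^ 2
      ≤ ∑ j ∈ J, (1 + (j : ℝ)) ^ 2 * (A * ∑ k ∈ S, wk m k * F k j ^ 2 / ck c k ^ 2) :=
        sum_le_sum fun j _ => mul_le_mul_of_nonneg_left (hcs j) (by positivity)
    _ = A * ∑ k ∈ S, wk m k / ck c k ^ 2 * ∑ j ∈ J, (1 + (j : ℝ)) ^ 2 * F k j ^ 2 := by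
        simp_rw [mul_sum]
        rw [sum_comm]
        refine sum_congr rfl fun k _ => sum_congr rfl fun j _ => ?_
        ring
    _ ≤ A * ∑ k ∈ S, wk m k / ck c k ^ 2 * (K1 * ck c k ^ 2) ^ 2 := by
        apply mul_le_mul_of_nonneg_left _ hA0
        apply sum_le_sum
        intro k _
        apply mul_le_mul_of_nonneg_left (hF k J)
        exact div_nonneg (wk_pos m k).le (ha k).le
    _ = A * (K1 ^ 2 * A) := by
        congr 1
        rw [hA, mul_sum]
        refine sum_congr rfl fun k _ => ?_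
        have hne := (ha k).ne'
        generalize ck c k ^ 2 = A0 at hne
        field_simp
    _ = (K1 * A) ^ 2 := by ring
    _ ≤ (2 * K1 * c ^ 2) ^ 2 := by
        apply pow_le_pow_left₀ (mul_nonneg hK1 hA0)
        calc K1 * A ≤ K1 * (2 * c ^ 2) := mul_le_mul_of_nonneg_left hA2 hK1
          _ = _ := by ring

section

open Pool.Agent.H5R3.T469N

/-- one term -/
lemma ss_bound (m : ℕ) (hm : 2 ≤ m) : ∃ Q : ℝ, 0 ≤ Q ∧ ∀ (c : ℝ) (J : Finset ℕ),
    ∑ j ∈ J, (1 + (j : ℝ)) ^ 2 * (- PP (s0 c) j + PP (DD m (s0 c)) j) ^ 2 ≤ (Q * c ^ 2) ^ 2 := by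
  obtain ⟨K, hK1, hK⟩ := exists_chi_bound
  set A : ℝ := 2 ^ (2 * m) with hA
  have hA1 : 1 ≤ A := one_le_pow₀ (by norm_num)
  set R : ℝ := (K + 2 * m + 1) * A with hR
  set Q : ℝ := 2 * (4 * 4 ^ 2 + 4 * 2 ^ 2) + 2 * (4 * A ^ 2 + 4 * R ^ 2) with hQ
  have hQ0 : 0 < Q := by positivity
  refine ⟨Real.sqrt Q, Real.sqrt_nonneg _, fun c J => ?_⟩
  have g1 := weighted_bessel (hasDeriv_s0 c) (cont_s1 c) (M := 4 * c ^ 2) (M' := 2 * c ^ 2)
    (by
      intro x hx
      refine (abs_s0_le c x).trans ?_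
      have : x ^ 2 ≤ 4 := by nlinarith [hx.1, hx.2]
      nlinarith [sq_nonneg c])
    (by
      intro x hx
      refine (abs_s1_le c x).trans ?_
      rw [abs_of_nonneg hx.1]
      nlinarith [sq_nonneg c, hx.2]) J
  have g2 := weighted_bessel (hasDeriv_DD m hm (hasDeriv_s0 c) (abs_s0_le_two c))
    (cont_DD' m hm (cont_s0 c) (cont_s1 c) (abs_s0_le_two c) (abs_s1_le' c))
    (M := A * c ^ 2) (M' := R * c ^ 2)
    (fun x hx => DD_bound m hm c hx)
    (fun x hx => by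
      have := DD'_bound m hm c K hx (by linarith) (hK x hx)
      rw [← mul_assoc] at this
      exact this) J
  have h2 : ∑ j ∈ J, (1 + (j:ℝ)) ^ 2 * (- PP (s0 c) j + PP (DD m (s0 c)) j) ^ 2 ≤
      2 * ∑ j ∈ J, (1 + (j:ℝ)) ^ 2 * PP (s0 c) j ^ 2 +
      2 * ∑ j ∈ J, (1 + (j:ℝ)) ^ 2 * PP (DD m (s0 c)) j ^ 2 := by
    rw [mul_sum, mul_sum, ← sum_add_distrib]
    apply sum_le_sum
    intro j _
    have h3 : (-PP (s0 c) j + PP (DD m (s0 c)) j) ^ 2 ≤
        2 * PP (s0 c) j ^ 2 + 2 * PP (DD m (s0 c)) j ^ 2 := by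
      nlinarith [sq_nonneg (PP (s0 c) j + PP (DD m (s0 c)) j)]
    have h4 : (0:ℝ) ≤ (1 + (j:ℝ)) ^ 2 := by positivity
    nlinarith
  refine h2.trans ?_
  have : (Real.sqrt Q * c ^ 2) ^ 2 = 2 * (4 * (4 * c ^ 2) ^ 2 + 4 * (2 * c ^ 2) ^ 2) +
      2 * (4 * (A * c ^ 2) ^ 2 + 4 * (R * c ^ 2) ^ 2) := by
    rw [mul_pow, Real.sq_sqrt hQ0.le, hQ]; ring
  rw [this]
  linarith

end

section

open Pool.Agent.H54R3.T469O

lemma hasSum_PP {m : ℕ} (hm : 1 ≤ m) (c : ℝ) (j : ℕ) :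
    HasSum (fun k => wk m k * (- PP (s0 (ck c k)) j + PP (DD m (s0 (ck c k))) j))
      (- PP (sT c m) j + PP (DD m (sT c m)) j) := by
  have H1 : HasSum (fun k => wk m k * PP (s0 (ck c k)) j) (PP (sT c m) j) := by
    have h1 := PP_hasSum (F := fun k x => wk m k * s0 (ck c k) x) (a := fun k => wk m k * 2)
      (fun k => continuous_const.mul (s0_c _)) (fun k x _ => term_bd c m k x) ((summable_wk hm).mul_right 2)
      j (f := sT c m) (fun x _ => hasSum_sT hm c x)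
    simpa only [PP_const_mul] using h1
  have H2 : HasSum (fun k => wk m k * PP (DD m (s0 (ck c k))) j) (PP (DD m (sT c m)) j) := by
    have h1 := PP_hasSum (F := fun k x => wk m k * DD m (s0 (ck c k)) x)
      (a := fun k => wk m k * (2 ^ (2 * m) * 2))
      (fun k => continuous_const.mul (Pool.Agent.H54R3.T469O.DD_cont hm (s0_c _) (s0_two _))) (fun k x hx => by
        rw [abs_mul, abs_of_pos (wk_pos m k)]
        have h2 := DD_abs (m := m) (s0_two (ck c k)) x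
        have h3 : x ^ (2 * m) ≤ 2 ^ (2 * m) := pow_le_pow_left₀ hx.1 hx.2 _
        have h4 : |DD m (s0 (ck c k)) x| ≤ 2 ^ (2 * m) * 2 := by linarith
        exact mul_le_mul_of_nonneg_left h4 (wk_pos m k).le)
      ((summable_wk hm).mul_right _) j (f := DD m (sT c m)) (fun x _ => by
        have h2 := (hasSum_sT hm c x⁻¹).mul_left (chi x * x ^ (2 * m))
        have h3 : (fun k => wk m k * DD m (s0 (ck c k)) x) =
            fun k => chi x * x ^ (2 * m) * (wk m k * s0 (ck c k) x⁻¹) := by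
          funext k
          unfold DD
          ring
        rw [h3]
        exact h2)
    simpa only [PP_const_mul] using h1
  exact hs_congr ((H1.neg).add H2) (fun k => by ring) rfl

end

lemma hasSum_EE {m : ℕ} (hm : 3 ≤ m) (c : ℝ) (k : ℕ) :
    HasSum (fun n => wk m n * EE m (s0 (ck c n)) k) (EE m (sT c m) k) := by
  have hm1 : 1 ≤ m := by omega
  have h1 : HasSum (fun n => ∫ y in (0:ℝ)..(3/4), wk m n * ((chi y * (y ^ (m - 2) * s0 (ck c n) y⁻¹)) * ec k y))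
      (∫ y in (0:ℝ)..(3/4), (chi y * (y ^ (m - 2) * sT c m y⁻¹)) * ec k y) := by
    refine intervalIntegral.hasSum_integral_of_dominated_convergence (fun n _ => wk m n * 2) ?_ ?_ ?_ ?_ ?_
    · intro n
      have h3 := w_cont (G := s0 (ck c n)) (s0_c _) (s0_two _) hm
      have h4 := ec_cont k
      exact (continuous_const.mul (h3.mul h4)).aestronglyMeasurable
    · intro n
      refine Filter.Eventually.of_forall fun y hy => ?_
      rw [Set.uIoc_of_le (by norm_num)] at hy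
      rw [Real.norm_eq_abs, abs_mul, abs_mul, abs_mul, abs_mul, abs_of_nonneg (chi_nn y), abs_pow,
        abs_of_pos (wk_pos m n)]
      have e3 : |y| ^ (m - 2) ≤ 1 := pow_le_one₀ (abs_nonneg _) (by rw [abs_of_pos hy.1]; linarith [hy.2])
      have e5 : |ec k y| ≤ 1 := (abs_ec_le hy.1.le).trans (by linarith [hy.2])
      have hw := (wk_pos m n).le
      calc wk m n * (chi y * (|y| ^ (m - 2) * |s0 (ck c n) y⁻¹|) * |ec k y|) ≤ wk m n * (1 * (1 * 2) * 1) := by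
            gcongr
            · exact chi_le y
            · exact s0_two _ _
        _ = wk m n * 2 := by ring
    · exact Filter.Eventually.of_forall fun v _ => (summable_wk hm1).mul_right 2
    · exact Continuous.intervalIntegrable (by fun_prop) _ _
    · refine Filter.Eventually.of_forall fun y _ => ?_
      have h3 := (hasSum_sT hm1 c y⁻¹).mul_left (chi y * y ^ (m - 2) * ec k y)
      exact hs_congr h3 (fun n => by ring) (by ring)
  unfold Pool.Agent.Q127.EZ.EE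
  refine hs_congr h1 (fun n => ?_) rfl
  rw [intervalIntegral.integral_const_mul]

/-- JOB ET4 -/
theorem src : S_Src := by
  refine ⟨fun m c hm => ⟨sT_cont hm c, fun x => sT_abs hm c x⟩, fun m hm => ?_⟩
  obtain ⟨Q, hQ0, hQ⟩ := ss_bound m (by omega)
  obtain ⟨K, hKn, hKb⟩ := chi_bd
  refine ⟨2 * (Q + K + m + 1), by positivity, fun c hc J => ?_⟩
  have hck : ∀ k, 0 ≤ ck c k := fun k => by unfold ck; positivity
  have hm0 : (0:ℝ) ≤ m := Nat.cast_nonneg m
  constructor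
  · refine super hm hc (K1 := Q + K + m + 1) (by positivity) (F := fun k j =>
      - PP (s0 (ck c k)) j + PP (DD m (s0 (ck c k))) j) (fun k J => ?_)
      (fun j => hasSum_PP (by omega) c j) J
    refine (hQ (ck c k) J).trans ?_
    apply pow_le_pow_left₀ (by positivity)
    gcongr
    linarith
  · refine super hm hc (K1 := Q + K + m + 1) (by positivity) (F := fun k j => EE m (s0 (ck c k)) j)
      (fun k J => ?_) (fun j => hasSum_EE (by omega) c j) J
    refine (EE_s0 hm hKn hKb (hck k) J).trans ?_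
    apply pow_le_pow_left₀ (by positivity)
    rw [mul_comm]
    gcongr
    linarith

end Pool.Agent.Q128.ET
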